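import Pool.Agent.Lead.Nae

set_option autoImplicit false

namespace Pool.Agent.Results.MP_8b4e11_lc.NPComplete

open Pool.Agent.H11.PT Pool.Agent.Lead.Nae

/-- `(n, A)` is a loopless digraph on `{0,…,n-1}` that has a comparability ordering -/
def CompDi (G : ℕ × List (ℕ × ℕ)) : Prop :=
  (∀ a ∈ G.2, a.1 < G.1 ∧ a.2 < G.1 ∧ a.1 ≠ a.2) ∧
  ∃ lt : Fin G.1 → Fin G.1 → Prop, IsStrictTotalOrder (Fin G.1) lt ∧
    ∀ x y z, lt x y → lt y z → ((x.1, y.1) ∈ G.2 → (y.1, z.1) ∈ G.2 → (x.1, z.1) ∈ G.2) ∧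
      ((z.1, y.1) ∈ G.2 → (y.1, x.1) ∈ G.2 → (z.1, x.1) ∈ G.2)

def Rk (G : ℕ × List (ℕ × ℕ)) (r : ℕ → ℕ) : Prop :=
  (∀ u < G.1, ∀ v < G.1, r u = r v → u = v) ∧ ∀ x < G.1, ∀ y < G.1, ∀ z < G.1,
    (x, y) ∈ G.2 → (y, z) ∈ G.2 → (r x < r y ∧ r y < r z) ∨ (r z < r y ∧ r y < r x) → (x, z) ∈ G.2

theorem comp_iff (G : ℕ × List (ℕ × ℕ)) : CompDi G ↔
    (∀ a ∈ G.2, a.1 < G.1 ∧ a.2 < G.1 ∧ a.1 ≠ a.2) ∧ ∃ r, Rk G r ∧ ∀ u < G.1, r u ≤ G.1 := by
  classical
  refine and_congr_right fun _ => ⟨?_, ?_⟩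
  · rintro ⟨lt, o, h⟩
    let r : Fin G.1 → ℕ := fun u => (Finset.univ.filter fun v => lt v u).card
    have m : ∀ u v, lt u v → r u < r v := fun u v k => Finset.card_lt_card
      ⟨fun w hw => by simpa using _root_.trans (Finset.mem_filter.1 hw).2 k,
        fun s => irrefl u (by simpa using s (by simpa using k : u ∈ _))⟩
    have m' : ∀ u v, r u < r v → lt u v := fun u v k => by
      rcases trichotomous_of lt u v with a | rfl | a
      · exact a
      · omega
      · have := m _ _ a; omega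
    refine ⟨fun u => if k : u < G.1 then r ⟨u, k⟩ else 0, ⟨fun u hu v hv e => ?_,
      fun x hx y hy z hz a b c => ?_⟩, fun u hu => ?_⟩
    · simp only [dif_pos hu, dif_pos hv] at e
      rcases trichotomous_of lt ⟨u, hu⟩ ⟨v, hv⟩ with a | a | a
      · have := m _ _ a; omega
      · exact congrArg Fin.val a
      · have := m _ _ a; omega
    · simp only [dif_pos hx, dif_pos hy, dif_pos hz] at c
      rcases c with c | c
      · exact (h _ _ _ (m' _ _ c.1) (m' _ _ c.2)).1 a b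
      · exact (h _ _ _ (m' _ _ c.1) (m' _ _ c.2)).2 a b
    · simp only [dif_pos hu]
      exact (Finset.card_le_univ _).trans (by simp)
  · rintro ⟨r, ⟨h1, h2⟩, -⟩
    refine ⟨fun u v => r u < r v, { trichotomous := fun u v a b => Fin.ext (h1 _ u.2 _ v.2 (by omega))
                                    irrefl := fun _ => lt_irrefl _
                                    trans := fun _ _ _ => lt_trans }, fun x y z a b => ?_⟩
    exact ⟨fun c d => h2 _ x.2 _ y.2 _ z.2 c d (.inl ⟨a, b⟩),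
      fun c d => h2 _ z.2 _ y.2 _ x.2 c d (.inr ⟨a, b⟩)⟩

theorem comp_of (G : ℕ × List (ℕ × ℕ)) (v : ∀ a ∈ G.2, a.1 < G.1 ∧ a.2 < G.1 ∧ a.1 ≠ a.2)
    (r : ℕ → ℕ) (h : Rk G r) : CompDi G :=
  ⟨v, fun u v => r u < r v, { trichotomous := fun u v a b => Fin.ext (h.1 _ u.2 _ v.2 (by omega))
                              irrefl := fun _ => lt_irrefl _
                              trans := fun _ _ _ => lt_trans }, fun x y z a b =>
    ⟨fun c d => h.2 _ x.2 _ y.2 _ z.2 c d (.inl ⟨a, b⟩),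
      fun c d => h.2 _ z.2 _ y.2 _ x.2 c d (.inr ⟨a, b⟩)⟩⟩

def ver (G : ℕ × List (ℕ × ℕ)) (c : List ℕ) : Bool :=
  (G.2.all fun a => decide (a.1 < G.1) && decide (a.2 < G.1) && a.1 != a.2) &&
  ((List.range G.1).all fun u => (List.range G.1).all fun v => c.getD u 0 != c.getD v 0 || u == v) &&
  (List.range G.1).all fun x => (List.range G.1).all fun y => (List.range G.1).all fun z =>
    !G.2.contains (x, y) || !G.2.contains (y, z) ||
      !((decide (c.getD x 0 < c.getD y 0) && decide (c.getD y 0 < c.getD z 0)) ||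
        (decide (c.getD z 0 < c.getD y 0) && decide (c.getD y 0 < c.getD x 0))) ||
      G.2.contains (x, z)

theorem ver_iff (G : ℕ × List (ℕ × ℕ)) (c : List ℕ) : ver G c = true ↔
    (∀ a ∈ G.2, a.1 < G.1 ∧ a.2 < G.1 ∧ a.1 ≠ a.2) ∧ Rk G fun u => c.getD u 0 := by
  simp only [ver, Rk, Bool.and_eq_true, List.all_eq_true, decide_eq_true_eq, List.mem_range,
    Bool.not_eq_true', Bool.or_eq_true, beq_iff_eq, bne_iff_ne, ne_eq, List.contains_eq_mem,
    decide_eq_false_iff_not, and_assoc, or_assoc, ← Bool.not_eq_true]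
  simp only [← imp_iff_not_or]

theorem np : InNP CompDi := by
  refine PT.inNP_nats (V := ver) (by unfold ver; fun_prop) (fun G => G.1 * (G.1 + 1))
    (by fun_prop) (fun G c h => comp_of G ((ver_iff G c).1 h).1 _ ((ver_iff G c).1 h).2)
    fun G h => ?_
  obtain ⟨h0, r, ⟨h1, h2⟩, h3⟩ := (comp_iff G).1 h
  have e : ∀ u < G.1, ((List.range G.1).map r).getD u 0 = r u := by
    intro u hu
    simp [List.getD_eq_getElem?_getD, hu]
  refine ⟨(List.range G.1).map r, ?_, (ver_iff _ _).2 ⟨h0, fun u hu v hv => ?_,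
    fun x hx y hy z hz => ?_⟩⟩
  · have := List.sum_le_card_nsmul ((List.range G.1).map r) G.1 (by
      intro x hx
      obtain ⟨u, hu, rfl⟩ := List.mem_map.1 hx
      exact h3 u (List.mem_range.1 hu))
    simp only [List.length_map, List.length_range, smul_eq_mul] at this ⊢
    nlinarith
  · simp only [e u hu, e v hv]; exact h1 u hu v hv
  · simp only [e x hx, e y hy, e z hz]; exact h2 x hx y hy z hz

def nv (φ : List (ℕ × ℕ × ℕ)) : ℕ := (φ.map fun c => c.1 + c.2.1 + c.2.2).sum + 1 + φ.length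

def gad (c : ℕ × ℕ × ℕ) (j : ℕ) : List (ℕ × ℕ) :=
  [(10 * j + 6, 10 * j + 7), (10 * j + 8, 10 * j + 7), (10 * j + 8, 10 * j + 9),
   (10 * j + 6, 10 * j + 9), (10 * c.1 + 1, 10 * j + 6), (10 * c.1 + 1, 10 * j + 9),
   (10 * c.2.1 + 5, 10 * j + 8), (10 * c.2.1 + 5, 10 * j + 7), (10 * c.2.2 + 2, 10 * j + 8),
   (10 * c.2.2 + 2, 10 * j + 9), (10 * c.2.2 + 4, 10 * j + 6), (10 * c.2.2 + 4, 10 * j + 7)]

def red (φ : List (ℕ × ℕ × ℕ)) : ℕ × List (ℕ × ℕ) :=
  (10 * nv φ, ((List.range (nv φ)).flatMap fun t =>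
    (List.range 5).map fun i => (10 * t + i, 10 * t + (i + 1))) ++
      φ.zipIdx.flatMap fun p => gad p.1 p.2)

variable {φ : List (ℕ × ℕ × ℕ)}

def cl (φ : List (ℕ × ℕ × ℕ)) (j : ℕ) : ℕ × ℕ × ℕ := φ.getD j (0, 0, 0)

theorem mem_red {e : ℕ × ℕ} : e ∈ (red φ).2 ↔
    (∃ t < nv φ, ∃ i < 5, (10 * t + i, 10 * t + (i + 1)) = e) ∨ ∃ j < φ.length, e ∈ gad (cl φ j) j := by
  simp only [red, List.mem_append, List.mem_flatMap, List.mem_range, List.mem_map]
  refine or_congr Iff.rfl ⟨?_, fun ⟨j, hj, h⟩ => ⟨(cl φ j, j), ?_, h⟩⟩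
  · rintro ⟨⟨c, j⟩, hp, k⟩
    have e := List.mem_zipIdx_iff_getElem?.1 hp
    have hj : j < φ.length := (List.getElem?_eq_some_iff.1 e).1
    have e' : cl φ j = c := by
      rw [cl, List.getD_eq_getElem?_getD, e]; rfl
    exact ⟨j, hj, e' ▸ k⟩
  · rw [List.mem_zipIdx_iff_getElem?, cl, List.getD_eq_getElem _ _ hj]
    exact List.getElem?_eq_getElem hj

theorem cl_lt (j : ℕ) : (cl φ j).1 + (cl φ j).2.1 + (cl φ j).2.2 + φ.length < nv φ := by
  by_cases h : j < φ.length
  · have := List.le_sum_of_mem (List.mem_map_of_mem (f := fun c : ℕ × ℕ × ℕ => c.1 + c.2.1 + c.2.2)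
      (List.getElem_mem h))
    unfold cl nv
    rw [List.getD_eq_getElem _ _ h]
    omega
  · unfold cl nv
    rw [List.getD_eq_default _ _ (by omega)]
    simp only
    omega

theorem valid : ∀ a ∈ (red φ).2, a.1 < (red φ).1 ∧ a.2 < (red φ).1 ∧ a.1 ≠ a.2 := by
  intro a h
  rcases mem_red.1 h with ⟨t, ht, i, hi, rfl⟩ | ⟨j, hj, h⟩
  · simp only [red]; omega
  · have := cl_lt (φ := φ) j
    simp only [gad, List.mem_cons, List.not_mem_nil, or_false] at h
    rcases h with rfl | rfl | rfl | rfl | rfl | rfl | rfl | rfl | rfl | rfl | rfl | rfl <;>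
      simp only [red] <;> omega

theorem res {a i b k : ℕ} (hi : i < 10) (hk : k < 10) (h : (10 * a + i, 10 * b + k) ∈ (red φ).2) :
    (i, k) ∈ [(0, 1), (1, 2), (2, 3), (3, 4), (4, 5), (6, 7), (8, 7), (8, 9), (6, 9), (1, 6), (1, 9),
      (5, 8), (5, 7), (2, 8), (2, 9), (4, 6), (4, 7)] := by
  have e : (i, k) = ((10 * a + i, 10 * b + k).1 % 10, (10 * a + i, 10 * b + k).2 % 10) := by
    simp only [Prod.mk.injEq]; omega
  rw [e]
  generalize (10 * a + i, 10 * b + k) = p at h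
  rcases mem_red.1 h with ⟨t, ht, i, hi, rfl⟩ | ⟨j, hj, h⟩
  · interval_cases i <;> simp [Nat.add_mod]
  · simp only [gad, List.mem_cons, List.not_mem_nil, or_false] at h
    rcases h with rfl | rfl | rfl | rfl | rfl | rfl | rfl | rfl | rfl | rfl | rfl | rfl <;>
      simp [Nat.add_mod]

theorem sound (h : CompDi (red φ)) : NAE φ := by
  obtain ⟨-, r, ⟨h1, h2⟩, -⟩ := (comp_iff _).1 h
  have k : ∀ x y z, (x, y) ∈ (red φ).2 → (y, z) ∈ (red φ).2 → (x, z) ∉ (red φ).2 →
      (r x < r y ∧ r z < r y) ∨ (r y < r x ∧ r y < r z) := by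
    intro x y z a b c
    have v1 := valid _ a
    have v2 := valid _ b
    have := mt (h2 x v1.1 y v1.2.1 z v2.2.1 a b) c
    have := mt (h1 x v1.1 y v1.2.1) v1.2.2
    have := mt (h1 y v1.2.1 z v2.2.1) v2.2.2
    omega
  refine ⟨fun x => decide (r (10 * x + 0) < r (10 * x + 1)), fun c hc ⟨e1, e2⟩ => ?_⟩
  obtain ⟨j, hj, rfl⟩ := List.getElem_of_mem hc
  have e : cl φ j = φ[j] := by rw [cl, List.getD_eq_getElem _ _ hj]
  have l := cl_lt (φ := φ) j
  rw [← e, decide_eq_decide] at e1 e2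
  have pa : ∀ x i, x < nv φ → i < 5 → (10 * x + i, 10 * x + (i + 1)) ∈ (red φ).2 :=
    fun x i hx hi => mem_red.2 (.inl ⟨x, hx, i, hi, rfl⟩)
  have ga : ∀ e ∈ gad (cl φ j) j, e ∈ (red φ).2 := fun e he => mem_red.2 (.inr ⟨j, hj, he⟩)
  simp only [gad, List.forall_mem_cons] at ga
  obtain ⟨a1, a2, a3, a4, a5, -, a6, -, a7, -, a8, -⟩ := ga
  generalize (cl φ j).1 = x at *
  generalize (cl φ j).2.1 = y at *
  generalize (cl φ j).2.2 = z at *
  have p : ∀ x, x < nv φ → (r (10 * x + 0) < r (10 * x + 1) ∧ r (10 * x + 2) < r (10 * x + 1) ∧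
      r (10 * x + 3) > r (10 * x + 4) ∧ r (10 * x + 4) < r (10 * x + 5)) ∨
      (r (10 * x + 0) > r (10 * x + 1) ∧ r (10 * x + 2) > r (10 * x + 1) ∧
      r (10 * x + 3) < r (10 * x + 4) ∧ r (10 * x + 4) > r (10 * x + 5)) := by
    intro x hx
    have p0 := k _ _ _ (pa x 0 hx (by omega)) (pa x 1 hx (by omega))
      fun h => by simpa using res (by omega) (by omega) h
    have p1 := k _ _ _ (pa x 1 hx (by omega)) (pa x 2 hx (by omega))
      fun h => by simpa using res (by omega) (by omega) h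
    have p2 := k _ _ _ (pa x 2 hx (by omega)) (pa x 3 hx (by omega))
      fun h => by simpa using res (by omega) (by omega) h
    have p3 := k _ _ _ (pa x 3 hx (by omega)) (pa x 4 hx (by omega))
      fun h => by simpa using res (by omega) (by omega) h
    simp only [Nat.reduceAdd] at p0 p1 p2 p3
    clear k h1 h2 pa
    omega
  have q1 := k _ _ _ (pa x 0 (by omega) (by omega)) a5
    fun h => by simpa using res (by omega) (by omega) h
  have q2 := k _ _ _ (pa y 4 (by omega) (by omega)) a6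
    fun h => by simpa using res (by omega) (by omega) h
  have q3 := k _ _ _ (pa z 1 (by omega) (by omega)) a7
    fun h => by simpa using res (by omega) (by omega) h
  have q4 := k _ _ _ (pa z 3 (by omega) (by omega)) a8
    fun h => by simpa using res (by omega) (by omega) h
  have g1 := k _ _ _ a5 a1 fun h => by simpa using res (by omega) (by omega) h
  have g2 := k _ _ _ a6 a3 fun h => by simpa using res (by omega) (by omega) h
  have g3 := k _ _ _ a7 a2 fun h => by simpa using res (by omega) (by omega) h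
  have g4 := k _ _ _ a8 a4 fun h => by simpa using res (by omega) (by omega) h
  simp only [Nat.reduceAdd] at q1 q2 q3 q4
  have f1 : r (10 * x + 0) < r (10 * x + 1) ↔ r (10 * j + 6) < r (10 * j + 7) := by
    clear * - q1 g1; omega
  have f2 : r (10 * y + 0) < r (10 * y + 1) ↔ r (10 * j + 8) < r (10 * j + 9) := by
    have := p y (by omega)
    clear * - q2 g2 this; omega
  have f3 : r (10 * z + 0) < r (10 * z + 1) ↔ ¬ r (10 * j + 8) ≤ r (10 * j + 7) := by
    have := p z (by omega)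
    clear * - q3 g3 this; omega
  have f4 : r (10 * z + 0) < r (10 * z + 1) ↔ ¬ r (10 * j + 6) ≤ r (10 * j + 9) := by
    have := p z (by omega)
    clear * - q4 g4 this; omega
  have n1 : r (10 * j + 6) ≠ r (10 * j + 7) := by clear * - g1; omega
  rw [← e2] at f3 f4
  rw [← e1] at f2 f3 f4
  rw [f1] at f2 f3 f4
  clear * - f2 f3 f4 n1
  omega

def lev (x y z : Bool) (g : ℕ) : ℕ :=
  (bif x then (bif y then [2, 3, 1, 4] else bif z then [2, 3, 4, 1] else [1, 4, 3, 2])
    else bif y then (bif z then [4, 1, 2, 3] else [3, 2, 1, 4]) else [3, 1, 4, 2]).getD (g - 6) 0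

theorem lev_lt : ∀ x y z : Bool, ∀ g < 10, 6 ≤ g → 1 ≤ lev x y z g ∧ lev x y z g ≤ 4 := by decide

theorem lev_ok : ∀ x y z : Bool, ¬ (x = y ∧ y = z) → (lev x y z 6 < lev x y z 7 ↔ x) ∧
    (lev x y z 7 < lev x y z 6 ↔ !x) ∧ (lev x y z 8 < lev x y z 9 ↔ y) ∧
    (lev x y z 9 < lev x y z 8 ↔ !y) ∧ (lev x y z 7 < lev x y z 8 ↔ z) ∧
    (lev x y z 8 < lev x y z 7 ↔ !z) ∧ (lev x y z 9 < lev x y z 6 ↔ z) ∧
    (lev x y z 6 < lev x y z 9 ↔ !z) := by decide

theorem complete (h : NAE φ) : CompDi (red φ) := by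
  obtain ⟨σ, h⟩ := h
  let L : ℕ → ℕ → ℕ := fun t i => if i < 6 then (if σ t = decide (i % 2 = 1) then 5 else 0)
    else lev (σ (cl φ t).1) (σ (cl φ t).2.1) (σ (cl φ t).2.2) i
  let n := 10 * nv φ
  have key : ∀ x y z, (x, y) ∈ (red φ).2 → (y, z) ∈ (red φ).2 → (x, z) ∈ (red φ).2 ∨
      (L (x / 10) (x % 10) < L (y / 10) (y % 10) ∧ L (z / 10) (z % 10) < L (y / 10) (y % 10)) ∨
      (L (y / 10) (y % 10) < L (x / 10) (x % 10) ∧ L (y / 10) (y % 10) < L (z / 10) (z % 10)) := by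
    have d : ∀ t i, i < 10 → L ((10 * t + i) / 10) ((10 * t + i) % 10) = L t i := by
      intro t i hi
      rw [show (10 * t + i) / 10 = t by omega, show (10 * t + i) % 10 = i by omega]
    have lg : ∀ t i, 6 ≤ i → i < 10 → 1 ≤ L t i ∧ L t i ≤ 4 := by
      intro t i h1 h2
      simp only [L, if_neg (show ¬ i < 6 by omega)]
      exact lev_lt _ _ _ i h2 h1
    have ext : ∀ u t i, i < 6 → ((u, 10 * t + i) ∈ (red φ).2 ∨ (10 * t + i, u) ∈ (red φ).2) →
        (L t i = 5 ∧ L (u / 10) (u % 10) < 5) ∨ (L t i = 0 ∧ 0 < L (u / 10) (u % 10)) := by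
      intro u t i hi hu
      by_cases c : 6 ≤ u % 10
      · have := lg (u / 10) _ c (by omega)
        have : L t i = 5 ∨ L t i = 0 := by simp only [L, if_pos hi]; split_ifs <;> simp
        omega
      have : u / 10 = t ∧ (u % 10 = i + 1 ∨ u % 10 + 1 = i) := by
        rcases hu with hu | hu <;> rcases mem_red.1 hu with ⟨t, ht, i, hi, e⟩ | ⟨j, hj, e⟩ <;>
          simp only [gad, List.mem_cons, List.not_mem_nil, or_false, Prod.mk.injEq] at e <;> omega
      simp only [L, this.1, if_pos hi, if_pos (show u % 10 < 6 by omega)]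
      have : (u % 10 % 2 = 1) = ¬ (i % 2 = 1) := by simp only [eq_iff_iff]; omega
      simp only [this]
      cases σ t <;> by_cases i % 2 = 1 <;> simp [*]
    intro x y z a b
    by_cases c : y % 10 < 6
    · rw [← Nat.div_add_mod y 10] at a b
      have := ext x _ _ c (.inl a)
      have := ext z _ _ c (.inr b)
      omega
    rcases mem_red.1 b with ⟨t, ht, i, hi, e⟩ | ⟨j, hj, e⟩
    · simp only [Prod.mk.injEq] at e; omega
    rcases mem_red.1 a with ⟨t, ht, i, hi, e'⟩ | ⟨j', hj', e'⟩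
    · simp only [Prod.mk.injEq] at e'; omega
    have ga : ∀ e ∈ gad (cl φ j) j, e ∈ (red φ).2 := fun e he => mem_red.2 (.inr ⟨j, hj, he⟩)
    have lo := lev_ok _ _ _ (h (cl φ j) (by
      rw [cl, List.getD_eq_getElem _ _ hj]; exact List.getElem_mem _))
    have l6 := lg j 6 (by omega) (by omega)
    have l8 := lg j 8 (by omega) (by omega)
    simp only [gad, List.forall_mem_cons] at ga
    simp only [gad, List.mem_cons, List.not_mem_nil, or_false, Prod.mk.injEq] at e e'
    have e : (y = 10 * j + 6 ∨ y = 10 * j + 8) ∧ (z = 10 * j + 7 ∨ z = 10 * j + 9) := by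
      clear * - e c; omega
    obtain rfl : j = j' := by clear * - e e'; omega
    have e' : (y = 10 * j + 6 ∧ (x = 10 * (cl φ j).1 + 1 ∨ x = 10 * (cl φ j).2.2 + 4)) ∨
        (y = 10 * j + 8 ∧ (x = 10 * (cl φ j).2.1 + 5 ∨ x = 10 * (cl φ j).2.2 + 2)) := by
      clear * - e e'; omega
    rcases e' with ⟨rfl, rfl | rfl⟩ | ⟨rfl, rfl | rfl⟩ <;> rcases e.2 with rfl | rfl <;>
      first
      | exact .inl (by simp only [ga])
      | refine .inr ?_
        rw [d _ _ (by omega), d _ _ (by omega), d _ _ (by omega)]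
        revert l6 l8 lo
        simp only [L]
        cases σ (cl φ j).1 <;> cases σ (cl φ j).2.1 <;> cases σ (cl φ j).2.2 <;> simp [lev]
  refine comp_of _ valid (fun v => L (v / 10) (v % 10) * n + v) ⟨fun u hu v hv e => ?_,
    fun x hx y hy z hz a b c => (key x y z a b).resolve_right ?_⟩
  · have := congrArg (· % n) e
    simp only [Nat.mul_add_mod_self_right] at this
    rwa [Nat.mod_eq_of_lt (show u < n from hu), Nat.mod_eq_of_lt (show v < n from hv)] at this
  · have m : ∀ p q u v, u < n → p < q → p * n + u < q * n + v := fun p q u v hu l => by nlinarith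
    simp only at c
    rintro (⟨l1, l2⟩ | ⟨l1, l2⟩)
    · have := m _ _ x y hx l1
      have := m _ _ z y hz l2
      omega
    · have := m _ _ y x hy l1
      have := m _ _ y z hy l2
      omega

theorem result : NPComplete CompDi :=
  ⟨np, (hard_NAE.red red (by unfold red gad nv; fun_prop) fun _ => ⟨complete, sound⟩).npHard⟩

end Pool.Agent.Results.MP_8b4e11_lc.NPComplete
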